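import Pool.Agent.H207.BT.Stm2

/-!
# Project BT (helper207): close passages in the concrete setting
-/

set_option autoImplicit false

open Topology Filter Metric Set MeasureTheory Polynomial

namespace Pool.Agent.H871.BT207

open Pool.Agent.H790R3.RB Pool.Agent.H211.HY Pool.Agent.H207.BT

theorem iot_ne (τ : Bool) (z : ℂ) : iot τ z ≠ 0 := by
  unfold iot
  cases τ
  · intro h
    have := congrArg Prod.fst h
    simp at this
  · intro h
    have := congrArg Prod.snd h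
    simp at this

/-- reaching the goal passes to a noncritical preimage -/
theorem rch_pre {d : ℕ} (hd : 2 ≤ d) {x : CV d} (hx : ND x) {g p p' : ℂ × ℂ} (hp : p ≠ 0)
    (hp' : p' ≠ 0) (hw : wr x p ≠ 0) (hpar : cr (hF x p) p' = 0) (h : Rch x g p') :
    Rch x g p := by
  obtain ⟨N, h1, h2⟩ := h
  have hFp : hF x p ≠ 0 := fun h0 => hp (hx p h0)
  refine ⟨N + 1, fun j hj => ?_, ?_⟩
  · rcases Nat.eq_zero_or_pos j with h0 | h0
    · subst h0
      exact hw
    · obtain ⟨j, rfl⟩ : ∃ i, j = i + 1 := ⟨j - 1, by omega⟩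
      rw [Function.iterate_succ_apply]
      intro h3
      refine h1 j (by omega) (wr_of_par hd x (hx.iter_ne j hp') (hx.iter_ne j hFp) ?_ h3)
      rw [cr_comm, cr_iter x j hFp hp' hpar, neg_zero]
  · rw [Function.iterate_succ_apply]
    exact cr_trans (hx.iter_ne N hp') (cr_iter x N hFp hp' hpar) h2

theorem cho_nonneg (p q : ℂ × ℂ) : 0 ≤ cho p q := by
  unfold cho
  positivity

theorem t_CLOSE (h1 : Pool.Agent.H207.BT.S_DXM) (h2 : Pool.Agent.H207.BT.S_ROOT) :
    Pool.Agent.H207.BT.S_CLOSE := by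
  intro d k x₀ c₀ m X c ρ' C K₁ μ κ xx H
  obtain ⟨η, hη, hηρ, B, hB, hroot⟩ := h2 d k x₀ c₀ m X c ρ' H.hd H.nd H.nrm.1 H.fac H.fami
  obtain ⟨K₀, hK₀, hdxm⟩ := h1 d k x₀ c₀ m H.hd H.nd H.fac
  refine ⟨min η 1, lt_min hη one_pos, max B K₀, hB.trans (le_max_left _ _), ?_⟩
  intro g i n hx
  obtain ⟨l, hl⟩ := H.dis i n
  have hxη : xx i n ≤ η := hx.trans (min_le_left _ _)
  have hx0 : 0 ≤ xx i n := (cho_nonneg _ _).trans hl
  have hpne : qo x₀ (c₀ i) (n + 1) ≠ 0 := qo_ne H.nd _ _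
  refine ⟨l, ?_, ?_⟩
  · -- the derivative
    have e1 : DD (cf x₀ X (c₀ i)) (cz x₀ (c₀ i)) (n + 1) =
        DD (cf x₀ X (c₀ i)) (cz x₀ (c₀ i)) n * deriv (cf x₀ X (c₀ i) n 0) (cz x₀ (c₀ i) n) := by
      unfold DD
      rw [Finset.prod_range_succ]
    have e2 : cf x₀ X (c₀ i) n 0 = GG x₀ (tau (qo x₀ (c₀ i) (n + 1)))
        (tau (hF x₀ (qo x₀ (c₀ i) (n + 1)))) := by
      funext w
      unfold cf
      rw [H.fami.at0, ← qo_succ]
    have h3 := hdxm (qo x₀ (c₀ i) (n + 1)) l hpne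
    have h4 : ‖deriv (cf x₀ X (c₀ i) n 0) (cz x₀ (c₀ i) n)‖ ≤ max B K₀ * xx i n ^ m l := by
      rw [e2]
      refine h3.trans ?_
      exact mul_le_mul (le_max_right _ _) (pow_le_pow_left₀ (cho_nonneg _ _) hl _)
        (pow_nonneg (cho_nonneg _ _) _) ((zero_le_one.trans hB).trans (le_max_left _ _))
    rw [e1, norm_mul, mul_comm]
    exact mul_le_mul_of_nonneg_right h4 (norm_nonneg _)
  · intro w y r K hy hyη hyw hr hK hBK hlip hRP
    have hy1 : y ≤ 1 := hyη.trans (min_le_right _ _)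
    have hKr : 0 ≤ K * r := mul_nonneg (zero_le_one.trans hK) hr.le
    have hBK' : B * K * r ≤ y ^ (m l + 1) := by
      refine le_trans ?_ hBK
      rw [mul_assoc, mul_assoc]
      exact mul_le_mul_of_nonneg_right (le_max_left _ _) hKr
    have hv0 : cv x₀ X (c₀ l) (c l) 0 = cz x₀ (c₀ l) 0 := (H.good l).v0
    obtain ⟨q, q1, q2, q3, q4⟩ := hroot (qo x₀ (c₀ i) (n + 1)) l w y r K hpne (hl.trans hxη) hy
      (hyη.trans (min_le_left _ _)) (by rw [hv0]; exact hyw) hr hK hBK' hlip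
    have hz : zc (qo x₀ (c₀ i) (n + 1)) = cz x₀ (c₀ i) n := rfl
    rw [hz] at q1 q2
    have hrρ : r ≤ ρ' := by
      have a1 : r ≤ K * r := le_mul_of_one_le_left hr.le hK
      have a2 : K * r ≤ B * (K * r) := le_mul_of_one_le_left hKr hB
      have a3 : y ^ (m l + 1) ≤ y := pow_le_of_le_one hy.le hy1 (Nat.succ_ne_zero _)
      have a4 : y ≤ η := hyη.trans (min_le_left _ _)
      rw [mul_assoc] at hBK'
      linarith
    refine ⟨q, ?_, ?_, ?_, ?_⟩
    · refine q1.trans ?_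
      have h0 : 0 ≤ y + cho (qo x₀ (c₀ i) (n + 1)) (c₀ l, 1) :=
        add_nonneg hy.le (cho_nonneg _ _)
      exact mul_le_mul (le_max_left _ _) (by linarith) h0
        ((zero_le_one.trans hB).trans (le_max_left _ _))
    · exact q2.trans (mul_le_mul_of_nonneg_right (le_max_left _ _) (norm_nonneg _))
    · intro s hs s' hs'
      refine (q3 s hs s' hs').trans ?_
      rw [mul_assoc, mul_assoc]
      exact mul_le_mul_of_nonneg_right (le_max_left _ _)
        (mul_nonneg (zero_le_one.trans hK) (norm_nonneg _))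
    · intro s hs
      obtain ⟨q5, q6⟩ := q4 s hs
      have hND : ND (X s) := H.fami.nd s (ball_subset_ball hrρ hs)
      exact rch_pre H.hd hND (iot_ne _ _) (iot_ne _ _) q5 q6 (hRP s hs)

end Pool.Agent.H871.BT207
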